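import Pool.Agent.helper11.RPQ.SpecT
import Pool.Agent.helper91.QU.DOB
import Pool.Agent.helper62.QU.INV

set_option autoImplicit false

open scoped MatrixGroups ContDiff Topology UpperHalfPlane ComplexConjugate
open UpperHalfPlane MeasureTheory Filter Set

namespace Pool.Agent.RPQ

open Pool.Agent.RS
open Pool.Agent.MS (BA BB st pf gk Dk amk)

noncomputable section

/-! ## The automorphic kernel -/

/-- local finiteness -/
theorem SPK_fin (h5 : QU.DOB_stmt) {Γ : Subgroup SL(2, ℝ)} {F : Set ℍ} {K : ℍ → ℍ → ℝ}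
    (hΓ : QU.SurfaceGroup Γ) (hF : QU.NiceDom Γ F) (hK : QU.PKer Γ K) {K₁ K₂ : Set ℍ}
    (hK₁ : IsCompact K₁) (hK₂ : IsCompact K₂) :
    ∃ S : Finset Γ, ∀ z ∈ K₁, ∀ w ∈ K₂, ∀ γ : Γ, γ ∉ S → K z ((γ : SL(2, ℝ)) • w) = 0 := by
  obtain ⟨R, hR⟩ := hK.prop
  obtain ⟨-, -, -, -, -, d6⟩ := h5 Γ F hΓ hF
  have hfin := d6 K₂ (Metric.cthickening R K₁) hK₂ (hK₁.cthickening)
  refine ⟨hfin.toFinset, fun z hz w hw γ hγ => ?_⟩
  by_contra hne
  apply hγ
  rw [Set.Finite.mem_toFinset]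
  refine ⟨w, hw, ?_⟩
  have h2 := hR _ _ hne
  rw [dist_comm] at h2
  exact Metric.mem_cthickening_of_dist_le _ z R K₁ hz h2

theorem SPK_eq {Γ : Subgroup SL(2, ℝ)} {K : ℍ → ℍ → ℝ} {S : Finset Γ} {z w : ℍ}
    (h : ∀ γ : Γ, γ ∉ S → K z ((γ : SL(2, ℝ)) • w) = 0) :
    perH Γ K z w = ∑ γ ∈ S, ((K z ((γ : SL(2, ℝ)) • w) : ℝ) : ℂ) := by
  unfold perH
  apply finsum_eq_sum_of_support_subset
  intro γ hγ
  by_contra hn
  exact hγ (by
    change ((K z ((γ : SL(2, ℝ)) • w) : ℝ) : ℂ) = 0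
    rw [h γ hn, Complex.ofReal_zero])

theorem SPK_term_cont {Γ : Subgroup SL(2, ℝ)} {K : ℍ → ℍ → ℝ} (hK : QU.PKer Γ K) (γ : Γ) :
    Continuous fun p : ℍ × ℍ => ((K p.1 ((γ : SL(2, ℝ)) • p.2) : ℝ) : ℂ) := by
  have e : Continuous fun p : ℍ × ℍ => ((p.1, (γ : SL(2, ℝ)) • p.2) : ℍ × ℍ) := by
    refine continuous_fst.prodMk ?_
    exact (continuous_const_smul (γ : SL(2, ℝ))).comp continuous_snd
  exact Complex.continuous_ofReal.comp (hK.cont.comp e)

/-- joint continuity -/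
theorem SPK_cont (h5 : QU.DOB_stmt) {Γ : Subgroup SL(2, ℝ)} {F : Set ℍ} {K : ℍ → ℍ → ℝ}
    (hΓ : QU.SurfaceGroup Γ) (hF : QU.NiceDom Γ F) (hK : QU.PKer Γ K) :
    Continuous (Function.uncurry (perH Γ K)) := by
  rw [continuous_iff_continuousAt]
  rintro ⟨z, w⟩
  obtain ⟨S, hS⟩ := SPK_fin h5 hΓ hF hK (isCompact_closedBall z 1) (isCompact_closedBall w 1)
  have hc : Continuous fun p : ℍ × ℍ => ∑ γ ∈ S, ((K p.1 ((γ : SL(2, ℝ)) • p.2) : ℝ) : ℂ) :=
    continuous_finsetSum _ fun γ _ => SPK_term_cont hK γ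
  have hev : (fun p : ℍ × ℍ => ∑ γ ∈ S, ((K p.1 ((γ : SL(2, ℝ)) • p.2) : ℝ) : ℂ)) =ᶠ[𝓝 (z, w)]
      Function.uncurry (perH Γ K) := by
    have hn : Metric.closedBall z 1 ×ˢ Metric.closedBall w 1 ∈ 𝓝 (z, w) :=
      prod_mem_nhds (Metric.closedBall_mem_nhds z one_pos) (Metric.closedBall_mem_nhds w one_pos)
    filter_upwards [hn] with p hp
    exact (SPK_eq (fun γ hγ => hS p.1 hp.1 p.2 hp.2 γ hγ)).symm
  exact hc.continuousAt.congr hev

theorem SPK_inv_z {Γ : Subgroup SL(2, ℝ)} {K : ℍ → ℍ → ℝ} (hK : QU.PKer Γ K) (z w : ℍ) (δ : Γ) :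
    perH Γ K (δ • z) w = perH Γ K z w := by
  unfold perH
  rw [← finsum_comp_equiv (Equiv.mulLeft δ)]
  apply finsum_congr
  intro γ
  rw [Equiv.coe_mulLeft]
  have e : ((δ * γ : Γ) : SL(2, ℝ)) • w = δ • ((γ : SL(2, ℝ)) • w) := by
    rw [Subgroup.coe_mul, mul_smul]
    rfl
  rw [e, hK.inv δ z]

theorem SPK_inv_w {Γ : Subgroup SL(2, ℝ)} {K : ℍ → ℍ → ℝ} (z w : ℍ) (δ : Γ) :
    perH Γ K z (δ • w) = perH Γ K z w := by
  unfold perH
  rw [← finsum_comp_equiv (Equiv.mulRight δ)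
    (f := fun γ : Γ => ((K z ((γ : SL(2, ℝ)) • w) : ℝ) : ℂ))]
  apply finsum_congr
  intro γ
  rw [Equiv.coe_mulRight]
  have e : ((γ * δ : Γ) : SL(2, ℝ)) • w = (γ : SL(2, ℝ)) • (δ • w) := by
    rw [Subgroup.coe_mul, mul_smul]
    rfl
  rw [e]

theorem SPK_symm {Γ : Subgroup SL(2, ℝ)} {K : ℍ → ℍ → ℝ} (hK : QU.PKer Γ K) (z w : ℍ) :
    perH Γ K w z = perH Γ K z w := by
  unfold perH
  rw [← finsum_comp_equiv (Equiv.inv Γ)
    (f := fun γ : Γ => ((K z ((γ : SL(2, ℝ)) • w) : ℝ) : ℂ))]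
  apply finsum_congr
  intro γ
  have h1 := hK.inv γ z (γ⁻¹ • w)
  rw [smul_inv_smul] at h1
  have h2 : K w ((γ : SL(2, ℝ)) • z) = K (γ • z) w := hK.symm _ _
  rw [h2, h1]
  rfl

theorem SPK_real {Γ : Subgroup SL(2, ℝ)} {K : ℍ → ℍ → ℝ} (h5 : QU.DOB_stmt) {F : Set ℍ}
    (hΓ : QU.SurfaceGroup Γ) (hF : QU.NiceDom Γ F) (hK : QU.PKer Γ K) (z w : ℍ) :
    conj (perH Γ K z w) = perH Γ K z w := by
  obtain ⟨S, hS⟩ := SPK_fin h5 hΓ hF hK (isCompact_singleton (x := z)) (isCompact_singleton (x := w))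
  rw [SPK_eq (fun γ hγ => hS z rfl w rfl γ hγ), map_sum]
  exact Finset.sum_congr rfl fun γ _ => Complex.conj_ofReal _

theorem SPK_bdd (h5 : QU.DOB_stmt) {Γ : Subgroup SL(2, ℝ)} {F : Set ℍ} {K : ℍ → ℍ → ℝ}
    (hΓ : QU.SurfaceGroup Γ) (hF : QU.NiceDom Γ F) (hK : QU.PKer Γ K) :
    ∃ B : ℝ, ∀ z w, ‖perH Γ K z w‖ ≤ B := by
  obtain ⟨C, hC, hCc⟩ := hΓ.cocompact
  have hcont := SPK_cont h5 hΓ hF hK
  obtain ⟨B, hB⟩ := (hC.prod hC).exists_bound_of_continuousOn (f := Function.uncurry (perH Γ K))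
    hcont.continuousOn
  refine ⟨B, fun z w => ?_⟩
  obtain ⟨γ, hγ⟩ := hCc z
  obtain ⟨δ, hδ⟩ := hCc w
  have h1 := hB (γ • z, δ • w) ⟨hγ, hδ⟩
  rw [← SPK_inv_z hK z w γ, ← SPK_inv_w (γ • z) w δ]
  exact h1

/-- unfolding -/
theorem SPK_unfold (h2 : QU.INV_stmt) (h5 : QU.DOB_stmt)
    {Γ : Subgroup SL(2, ℝ)} {F : Set ℍ} {K : ℍ → ℍ → ℝ} (hΓ : QU.SurfaceGroup Γ)
    (hF : QU.NiceDom Γ F) (hK : QU.PKer Γ K) {v : ℍ → ℂ} (hv : Continuous v)
    (hinv : ∀ (γ : Γ) z, v ((γ : SL(2, ℝ)) • z) = v z) (z : ℍ) :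
    ∫ w in F, perH Γ K z w * v w = kop K v z := by
  obtain ⟨hcount, hfd, -, hfin, -, -⟩ := h5 Γ F hΓ hF
  have := hcount
  have : SMulInvariantMeasure Γ ℍ (volume : Measure ℍ) := h2.2.1 Γ
  obtain ⟨K₀, hK₀, hFK⟩ := hF.rel
  obtain ⟨S, hS⟩ := SPK_fin h5 hΓ hF hK (isCompact_singleton (x := z)) hK₀
  have hcz : Continuous fun w : ℍ => ((K z w : ℝ) : ℂ) :=
    Complex.continuous_ofReal.comp (hK.cont.comp (continuous_const.prodMk continuous_id))
  have hcs : HasCompactSupport fun w : ℍ => ((K z w : ℝ) : ℂ) := by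
    obtain ⟨R, hR⟩ := hK.prop
    refine HasCompactSupport.intro (isCompact_closedBall z R) fun w hw => ?_
    by_contra hne
    apply hw
    rw [Metric.mem_closedBall, dist_comm]
    exact hR z w fun h0 => hne (by rw [h0, Complex.ofReal_zero])
  have hint : Integrable (fun w : ℍ => ((K z w : ℝ) : ℂ) * v w) (volume : Measure ℍ) := by
    refine Continuous.integrable_of_hasCompactSupport (hcz.mul hv) ?_
    exact hcs.mul_right
  unfold kop
  rw [hfd.integral_eq_tsum'' _ hint]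
  rw [tsum_eq_sum (s := S)]
  · rw [← integral_finsetSum]
    · refine setIntegral_congr_fun hF.meas fun w hw => ?_
      rw [SPK_eq (fun γ hγ => hS z rfl w (hFK hw) γ hγ), Finset.sum_mul]
      refine Finset.sum_congr rfl fun γ _ => ?_
      have h3 : v (γ • w) = v w := hinv γ w
      rw [h3]
      rfl
    · intro γ _
      have hm : MeasurePreserving (fun w : ℍ => γ • w) (volume : Measure ℍ) volume :=
        measurePreserving_smul γ volume
      exact ((hm.integrable_comp_emb (measurableEmbedding_const_smul γ)).2 hint).integrableOn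
  · intro γ hγ
    refine setIntegral_eq_zero_of_forall_eq_zero fun w hw => ?_
    have h4 : K z (γ • w) = 0 := hS z rfl w (hFK hw) γ hγ
    rw [h4, Complex.ofReal_zero, zero_mul]

theorem SPK_InvC (h5 : QU.DOB_stmt) {Γ : Subgroup SL(2, ℝ)} {F : Set ℍ} {K : ℍ → ℍ → ℝ}
    (hΓ : QU.SurfaceGroup Γ) (hF : QU.NiceDom Γ F) (hK : QU.PKer Γ K) (v : ℍ → ℂ)
    (hv : IntegrableOn v F) : InvC Γ (fun z => ∫ w in F, perH Γ K z w * v w) := by
  obtain ⟨B, hB⟩ := SPK_bdd h5 hΓ hF hK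
  have hcont := SPK_cont h5 hΓ hF hK
  constructor
  · refine continuous_of_dominated (F := fun (z : ℍ) (w : ℍ) => perH Γ K z w * v w)
      (bound := fun w => B * ‖v w‖) ?_ ?_ ?_ ?_
    · intro z
      have h1 : Continuous fun w : ℍ => perH Γ K z w :=
        hcont.comp (continuous_const.prodMk continuous_id)
      exact h1.aestronglyMeasurable.mul hv.aestronglyMeasurable
    · intro z
      refine Eventually.of_forall fun w => ?_
      rw [norm_mul]
      exact mul_le_mul_of_nonneg_right (hB z w) (norm_nonneg _)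
    · exact hv.norm.const_mul B
    · refine Eventually.of_forall fun w => ?_
      have h1 : Continuous fun z : ℍ => perH Γ K z w :=
        hcont.comp (continuous_id.prodMk continuous_const)
      exact h1.mul continuous_const
  · intro γ z
    refine integral_congr_ae (Eventually.of_forall fun w => ?_)
    change perH Γ K (γ • z) w * v w = perH Γ K z w * v w
    rw [SPK_inv_z hK]

/-! ## Operators with kernels -/

section ops
variable {Y : Type} [MeasurableSpace Y] {μ : Measure Y} [IsFiniteMeasure μ]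

theorem SPK_L1 (v : Lp ℂ 2 μ) : Integrable (v : Y → ℂ) μ :=
  (Lp.memLp v).integrable (by norm_num)

theorem SPK_Kv {K : Y → Y → ℂ} (hK : Measurable (Function.uncurry K)) {B : ℝ}
    (hB : ∀ y z, ‖K y z‖ ≤ B) (v : Lp ℂ 2 μ) (y : Y) : Integrable (fun z => K y z * v z) μ := by
  have h1 : Measurable (K y) := hK.comp (measurable_const.prodMk measurable_id)
  exact (SPK_L1 v).bdd_mul h1.aestronglyMeasurable (Eventually.of_forall (hB y))

theorem SPK_add {K L : Y → Y → ℂ} {T S : Lp ℂ 2 μ →L[ℂ] Lp ℂ 2 μ}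
    (hK : Measurable (Function.uncurry K)) (hKB : ∃ B : ℝ, ∀ y z, ‖K y z‖ ≤ B)
    (hL : Measurable (Function.uncurry L)) (hLB : ∃ B : ℝ, ∀ y z, ‖L y z‖ ≤ B)
    (hT : IsOp μ K T) (hS : IsOp μ L S) : IsOp μ (fun y z => K y z + L y z) (T + S) := by
  obtain ⟨B, hB⟩ := hKB
  obtain ⟨B', hB'⟩ := hLB
  intro v
  have h1 : (T + S) v = T v + S v := rfl
  rw [h1]
  filter_upwards [Lp.coeFn_add (T v) (S v), hT v, hS v] with y h2 h3 h4
  rw [h2, Pi.add_apply, h3, h4, ← integral_add (SPK_Kv hK hB v y) (SPK_Kv hL hB' v y)]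
  refine integral_congr_ae (Eventually.of_forall fun z => ?_)
  change _ = (K y z + L y z) * v z
  ring

theorem SPK_sub {K L : Y → Y → ℂ} {T S : Lp ℂ 2 μ →L[ℂ] Lp ℂ 2 μ}
    (hK : Measurable (Function.uncurry K)) (hKB : ∃ B : ℝ, ∀ y z, ‖K y z‖ ≤ B)
    (hL : Measurable (Function.uncurry L)) (hLB : ∃ B : ℝ, ∀ y z, ‖L y z‖ ≤ B)
    (hT : IsOp μ K T) (hS : IsOp μ L S) : IsOp μ (fun y z => K y z - L y z) (T - S) := by
  obtain ⟨B, hB⟩ := hKB
  obtain ⟨B', hB'⟩ := hLB
  intro v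
  have h1 : (T - S) v = T v - S v := rfl
  rw [h1]
  filter_upwards [Lp.coeFn_sub (T v) (S v), hT v, hS v] with y h2 h3 h4
  rw [h2, Pi.sub_apply, h3, h4, ← integral_sub (SPK_Kv hK hB v y) (SPK_Kv hL hB' v y)]
  refine integral_congr_ae (Eventually.of_forall fun z => ?_)
  change _ = (K y z - L y z) * v z
  ring

/-- the kernels of rank one -/
theorem SPK_rank1 (D : Set Y) (hD : MeasurableSet D) (h : Y → ℂ) (hh : Measurable h) (B : ℝ)
    (hB : ∀ z, ‖h z‖ ≤ B) : ∃ S : Lp ℂ 2 μ →L[ℂ] Lp ℂ 2 μ,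
    IsOp μ (fun y z => D.indicator (fun _ => (1 : ℂ)) y * h z) S ∧ IsCompactOperator S := by
  have hg : MemLp (fun z => conj (h z)) 2 μ := by
    refine MemLp.of_bound (Complex.continuous_conj.measurable.comp hh).aestronglyMeasurable B ?_
    refine Eventually.of_forall fun z => ?_
    rw [RCLike.norm_conj]
    exact hB z
  let χ : Lp ℂ 2 μ := indicatorConstLp 2 hD (measure_ne_top μ D) (1 : ℂ)
  let g : Lp ℂ 2 μ := hg.toLp
  refine ⟨(innerSL ℂ g).smulRight χ, ?_, ?_⟩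
  · intro v
    have h1 : ((innerSL ℂ g).smulRight χ) v = (inner ℂ g v : ℂ) • χ := rfl
    rw [h1]
    have h2 : (inner ℂ g v : ℂ) = ∫ z, h z * v z ∂μ := by
      rw [L2.inner_def]
      refine integral_congr_ae ?_
      filter_upwards [hg.coeFn_toLp] with z hz
      change inner ℂ (g z) (v z) = h z * v z
      rw [RCLike.inner_apply, show (g : Y → ℂ) z = conj (h z) from hz, Complex.conj_conj]
      ring
    filter_upwards [Lp.coeFn_smul (inner ℂ g v : ℂ) χ,
      indicatorConstLp_coeFn (p := 2) (hs := hD) (hμs := measure_ne_top μ D) (c := (1 : ℂ))] with y h3 h4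
    rw [h3, Pi.smul_apply, show (χ : Y → ℂ) y = D.indicator (fun _ => (1 : ℂ)) y from h4, h2, smul_eq_mul,
      mul_comm, ← integral_const_mul]
    refine integral_congr_ae (Eventually.of_forall fun z => ?_)
    change _ = D.indicator (fun _ => (1 : ℂ)) y * h z * v z
    ring
  · have h1 : IsCompactOperator (innerSL ℂ g : Lp ℂ 2 μ →L[ℂ] ℂ) :=
      isCompactOperator_of_locallyCompactSpace_dom (innerSL ℂ g : Lp ℂ 2 μ →L[ℂ] ℂ)
    exact h1.continuous_comp (g := fun c : ℂ => c • χ) (continuous_id.smul continuous_const)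

theorem SPK_sumop (D : ℕ → Set Y) (hD : ∀ i, MeasurableSet (D i)) (h : ℕ → Y → ℂ)
    (hh : ∀ i, Measurable (h i)) (B : ℝ) (hB : ∀ i z, ‖h i z‖ ≤ B) (n : ℕ) :
    Measurable (Function.uncurry fun y z => ∑ i ∈ Finset.range n, (D i).indicator (fun _ => (1 : ℂ)) y * h i z) ∧
    (∃ B' : ℝ, ∀ y z, ‖∑ i ∈ Finset.range n, (D i).indicator (fun _ => (1 : ℂ)) y * h i z‖ ≤ B') ∧
    ∃ S : Lp ℂ 2 μ →L[ℂ] Lp ℂ 2 μ,
    IsOp μ (fun y z => ∑ i ∈ Finset.range n, (D i).indicator (fun _ => (1 : ℂ)) y * h i z) S ∧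
      IsCompactOperator S := by
  have hm : ∀ i, Measurable (Function.uncurry fun y z => (D i).indicator (fun _ => (1 : ℂ)) y * h i z) := by
    intro i
    have h1 : Measurable ((D i).indicator (fun _ => (1 : ℂ))) := measurable_const.indicator (hD i)
    exact (h1.comp measurable_fst).mul ((hh i).comp measurable_snd)
  have hb : ∀ i y z, ‖(D i).indicator (fun _ => (1 : ℂ)) y * h i z‖ ≤ B := by
    intro i y z
    have h0 : 0 ≤ B := (norm_nonneg _).trans (hB i z)
    by_cases hy : y ∈ D i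
    · rw [Set.indicator_of_mem hy, one_mul]
      exact hB i z
    · rw [Set.indicator_of_notMem hy, zero_mul, norm_zero]
      exact h0
  induction n with
  | zero =>
    refine ⟨?_, ⟨0, fun y z => by simp⟩, 0, ?_, ?_⟩
    · simp only [Finset.range_zero, Finset.sum_empty]
      exact measurable_const
    · intro v
      have : (0 : Lp ℂ 2 μ →L[ℂ] Lp ℂ 2 μ) v = 0 := rfl
      rw [this]
      filter_upwards [Lp.coeFn_zero ℂ 2 μ] with y hy
      rw [hy]
      simp
    · exact isCompactOperator_zero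
  | succ n ih =>
    obtain ⟨h1, ⟨B₁, h2⟩, S, h3, h4⟩ := ih
    obtain ⟨S', h5, h6⟩ := SPK_rank1 (μ := μ) (D n) (hD n) (h n) (hh n) B (hB n)
    refine ⟨?_, ⟨B₁ + B, ?_⟩, S + S', ?_, ?_⟩
    · simp only [Finset.sum_range_succ]
      exact h1.add (hm n)
    · intro y z
      rw [Finset.sum_range_succ]
      exact (norm_add_le _ _).trans (add_le_add (h2 y z) (hb n y z))
    · simp only [Finset.sum_range_succ]
      exact SPK_add h1 ⟨B₁, h2⟩ (hm n) ⟨B, hb n⟩ h3 h5
    · exact h4.add h6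

/-- symmetric kernels -/
theorem SPK_sa {K : Y → Y → ℂ} (hK : Measurable (Function.uncurry K)) {B : ℝ}
    (hB : ∀ y z, ‖K y z‖ ≤ B) (hs : ∀ y z, conj (K y z) = K z y)
    {T : Lp ℂ 2 μ →L[ℂ] Lp ℂ 2 μ} (hT : IsOp μ K T) (x y : Lp ℂ 2 μ) :
    inner ℂ (T x) y = inner ℂ x (T y) := by
  rw [L2.inner_def, L2.inner_def]
  have h1 : ∫ a, inner ℂ ((T x : Y → ℂ) a) (y a) ∂μ = ∫ a, ∫ b, K b a * (y a * conj (x b)) ∂μ ∂μ := by
    refine integral_congr_ae ?_
    filter_upwards [hT x] with a ha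
    rw [RCLike.inner_apply, ha, ← integral_conj, ← integral_const_mul]
    refine integral_congr_ae (Eventually.of_forall fun b => ?_)
    change y a * conj (K a b * x b) = K b a * (y a * conj (x b))
    rw [map_mul, hs]
    ring
  have h2 : ∫ b, inner ℂ (x b) ((T y : Y → ℂ) b) ∂μ = ∫ b, ∫ a, K b a * (y a * conj (x b)) ∂μ ∂μ := by
    refine integral_congr_ae ?_
    filter_upwards [hT y] with b hb
    rw [RCLike.inner_apply, hb, ← integral_mul_const]
    refine integral_congr_ae (Eventually.of_forall fun a => ?_)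
    change K b a * y a * conj (x b) = K b a * (y a * conj (x b))
    ring
  rw [h1, h2]
  refine integral_integral_swap ?_
  have h3 : Integrable (fun p : Y × Y => (y p.1) * conj (x p.2)) (μ.prod μ) :=
    (SPK_L1 y).mul_prod (f := fun a => y a) (g := fun b => conj (x b))
      ((SPK_L1 x).norm.mono' (Complex.continuous_conj.comp_aestronglyMeasurable (SPK_L1 x).1)
        (Eventually.of_forall fun b => by rw [RCLike.norm_conj]))
  have h4 : Measurable fun p : Y × Y => K p.2 p.1 := hK.comp (measurable_snd.prodMk measurable_fst)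
  exact h3.bdd_mul h4.aestronglyMeasurable (Eventually.of_forall fun p => hB p.2 p.1)

end ops

/-- compactness -/
theorem SPK_compact (hKO1 : KO1_stmt) {F K₀ : Set ℍ} (hF : MeasurableSet F) (hK₀ : IsCompact K₀)
    (hFK : F ⊆ K₀) (hvol : volume F < ⊤) {H : ℍ → ℍ → ℂ} (hH : Continuous (Function.uncurry H))
    {B : ℝ} (hB : ∀ z w, ‖H z w‖ ≤ B)
    {T : Lp ℂ 2 (volume.restrict F) →L[ℂ] Lp ℂ 2 (volume.restrict F)}
    (hT : IsOp (volume.restrict F) H T) : IsCompactOperator T := by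
  have hfm : IsFiniteMeasure (volume.restrict F : Measure ℍ) := ⟨by
    rw [Measure.restrict_apply_univ]
    exact hvol⟩
  have hcl := isClosed_setOfPred_isCompactOperator (σ₁₂ := RingHom.id ℂ)
    (M₁ := Lp ℂ 2 (volume.restrict F : Measure ℍ)) (M₂ := Lp ℂ 2 (volume.restrict F : Measure ℍ))
  change T ∈ {f : Lp ℂ 2 (volume.restrict F : Measure ℍ) →SL[RingHom.id ℂ]
    Lp ℂ 2 (volume.restrict F : Measure ℍ) | IsCompactOperator f}
  rw [← hcl.closure_eq, Metric.mem_closure_iff]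
  intro ε hε
  set V : ℝ := (volume.restrict F : Measure ℍ).real univ with hV
  have hV0 : 0 ≤ V := measureReal_nonneg
  obtain ⟨e, he, heV⟩ : ∃ e : ℝ, 0 < e ∧ e * V < ε := by
    refine ⟨ε / (V + 1), by positivity, ?_⟩
    rw [div_mul_eq_mul_div, div_lt_iff₀ (by linarith)]
    nlinarith
  let C2 : C(ℍ × ℍ, ℂ) := ⟨Function.uncurry H, hH⟩
  have hU : ∀ z : ℍ, {z' | ∀ w ∈ K₀, dist (H z w) (H z' w) < e} ∈ 𝓝 z := by
    intro z
    have hcc : Tendsto (fun z' => C2.curry z') (𝓝 z) (𝓝 (C2.curry z)) :=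
      C2.curry.continuous.continuousAt
    rw [ContinuousMap.tendsto_iff_forall_isCompact_tendstoUniformlyOn] at hcc
    have h1 := hcc K₀ hK₀
    rw [Metric.tendstoUniformlyOn_iff] at h1
    filter_upwards [h1 e he] with z' hz'
    exact hz'
  obtain ⟨t, -, ht⟩ := hK₀.elim_nhds_subcover
    (fun z => interior {z' | ∀ w ∈ K₀, dist (H z w) (H z' w) < e})
    (fun z _ => interior_mem_nhds.2 (hU z))
  let p : ℕ → ℍ := fun i => t.toList.getD i UpperHalfPlane.I
  let f : ℕ → Set ℍ := fun i => if i < t.toList.length then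
    interior {z' | ∀ w ∈ K₀, dist (H (p i) w) (H z' w) < e} else ∅
  have hfm' : ∀ i, MeasurableSet (f i) := by
    intro i
    by_cases hi : i < t.toList.length
    · simp only [f, if_pos hi]
      exact isOpen_interior.measurableSet
    · simp only [f, if_neg hi]
      exact MeasurableSet.empty
  let D : ℕ → Set ℍ := disjointed f
  have hDm : ∀ i, MeasurableSet (D i) := fun i => MeasurableSet.disjointed hfm' i
  have hcontr : ∀ z, Continuous (H z) := fun z => hH.comp (continuous_const.prodMk continuous_id)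
  obtain ⟨m1, m2, S, hS, hSc⟩ := SPK_sumop (μ := (volume.restrict F : Measure ℍ)) D hDm
    (fun i => H (p i)) (fun i => (hcontr (p i)).measurable) B (fun i w => hB (p i) w) t.toList.length
  refine ⟨S, hSc, ?_⟩
  rw [dist_eq_norm]
  have hop := SPK_sub hH.measurable ⟨B, hB⟩ m1 m2 hT hS
  obtain ⟨B₂, hB₂⟩ := m2
  have hn := (hKO1 ℍ (volume.restrict F) (fun y z => H y z - ∑ i ∈ Finset.range t.toList.length,
      (D i).indicator (fun _ => (1 : ℂ)) y * H (p i) z) (hH.measurable.sub m1)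
    ⟨B + B₂, fun y z => (norm_sub_le _ _).trans (add_le_add (hB y z) (hB₂ y z))⟩).2 (T - S) hop
  have hpt : ∀ z ∈ F, ∀ w ∈ F, ‖H z w - ∑ i ∈ Finset.range t.toList.length,
      (D i).indicator (fun _ => (1 : ℂ)) z * H (p i) w‖ ≤ e := by
    intro z hz w hw
    have h1 : ∃ i, z ∈ D i := by
      have h2 : z ∈ ⋃ i, D i := by
        have h3 : (⋃ i, D i) = ⋃ i, f i := iUnion_disjointed
        rw [h3]
        obtain ⟨a, ha, hza⟩ := mem_iUnion₂.1 (ht (hFK hz))
        have ha' : a ∈ t.toList := Finset.mem_toList.2 ha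
        obtain ⟨i, hi, hia⟩ := List.mem_iff_getElem.1 ha'
        refine mem_iUnion.2 ⟨i, ?_⟩
        simp only [f, if_pos hi]
        have h4 : p i = a := by
          simp only [p]
          rw [List.getD_eq_getElem _ _ hi, hia]
        rw [h4]
        exact hza
      exact mem_iUnion.1 h2
    obtain ⟨i, hi⟩ := h1
    have hif : z ∈ f i := disjointed_subset f i hi
    have hil : i < t.toList.length := by
      by_contra hcon
      simp only [f, if_neg hcon] at hif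
      exact hif
    have hsum : ∑ j ∈ Finset.range t.toList.length, (D j).indicator (fun _ => (1 : ℂ)) z * H (p j) w =
        H (p i) w := by
      rw [Finset.sum_eq_single i]
      · rw [Set.indicator_of_mem hi, one_mul]
      · intro j _ hj
        have h5 : z ∉ D j := by
          intro hzj
          have h6 := disjoint_disjointed f hj
          exact Set.disjoint_left.1 h6 hzj hi
        rw [Set.indicator_of_notMem h5, zero_mul]
      · intro h7
        exact absurd (Finset.mem_range.2 hil) h7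
    rw [hsum]
    simp only [f, if_pos hil] at hif
    have h8 := interior_subset hif w (hFK hw)
    rw [dist_eq_norm, norm_sub_rev] at h8
    exact h8.le
  have hint : ∫ y in F, ∫ z in F, ‖H y z - ∑ i ∈ Finset.range t.toList.length,
      (D i).indicator (fun _ => (1 : ℂ)) y * H (p i) z‖ ^ 2 ≤ e ^ 2 * V * V := by
    have hinner : ∀ y ∈ F, ∫ z in F, ‖H y z - ∑ i ∈ Finset.range t.toList.length,
        (D i).indicator (fun _ => (1 : ℂ)) y * H (p i) z‖ ^ 2 ≤ e ^ 2 * V := by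
      intro y hy
      have h9 : ∫ z in F, ‖H y z - ∑ i ∈ Finset.range t.toList.length,
          (D i).indicator (fun _ => (1 : ℂ)) y * H (p i) z‖ ^ 2 ≤ ∫ z in F, (fun _ => e ^ 2) z := by
        refine integral_mono_of_nonneg (Eventually.of_forall fun z => by positivity)
          (integrable_const _) ?_
        filter_upwards [ae_restrict_mem hF] with z hz
        exact pow_le_pow_left₀ (norm_nonneg _) (hpt y hy z hz) 2
      refine h9.trans (le_of_eq ?_)
      rw [integral_const, smul_eq_mul, mul_comm]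
    have h10 : ∫ y in F, ∫ z in F, ‖H y z - ∑ i ∈ Finset.range t.toList.length,
        (D i).indicator (fun _ => (1 : ℂ)) y * H (p i) z‖ ^ 2 ≤ ∫ y in F, (fun _ => e ^ 2 * V) y := by
      refine integral_mono_of_nonneg (Eventually.of_forall fun y =>
        integral_nonneg fun z => by positivity) (integrable_const _) ?_
      filter_upwards [ae_restrict_mem hF] with y hy
      exact hinner y hy
    refine h10.trans (le_of_eq ?_)
    rw [integral_const, smul_eq_mul, mul_comm]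
  have hfinal : ‖T - S‖ ^ 2 ≤ (e * V) ^ 2 := by
    refine hn.trans (hint.trans (le_of_eq ?_))
    ring
  have h11 : ‖T - S‖ ≤ e * V := by
    have := abs_le_of_sq_le_sq hfinal (by positivity)
    exact (le_abs_self _).trans (by rwa [abs_of_nonneg (norm_nonneg _)] at this ⊢)
  exact lt_of_le_of_lt h11 heV

theorem SPK_proof (hKO1 : KO1_stmt) : SPK_stmt := by
  have h5 : QU.DOB_stmt := QU.DOB QU.INV
  have h2 : QU.INV_stmt := QU.INV
  intro Γ F K hΓ hF hK
  have hcont := SPK_cont h5 hΓ hF hK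
  obtain ⟨B, hB⟩ := SPK_bdd h5 hΓ hF hK
  obtain ⟨K₀, hK₀, hFK⟩ := hF.rel
  obtain ⟨-, -, -, hvol, -, -⟩ := h5 Γ F hΓ hF
  have hfm : IsFiniteMeasure (volume.restrict F : Measure ℍ) := ⟨by
    rw [Measure.restrict_apply_univ]
    exact hvol⟩
  refine ⟨hcont, ⟨B, hB⟩, fun v hv hinv z => SPK_unfold h2 h5 hΓ hF hK hv hinv z,
    fun v hv => SPK_InvC h5 hΓ hF hK v hv, ?_⟩
  obtain ⟨T, hT⟩ := (hKO1 ℍ (volume.restrict F) (perH Γ K) hcont.measurable ⟨B, hB⟩).1
  refine ⟨T, hT, SPK_compact hKO1 hF.meas hK₀ hFK hvol hcont hB hT, fun x y => ?_⟩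
  exact SPK_sa hcont.measurable hB (fun z w => by
    rw [SPK_real h5 hΓ hF hK, SPK_symm hK]) hT x y

end

end Pool.Agent.RPQ
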