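import Pool.Agent.helper11.RPQ.SpecI

/-!
# Row rpi:GI1 (MP_07c750_an, project RPI): numbers, the choice of the level
-/

set_option autoImplicit false

namespace Pool.Agent.RPQ

open Pool.Agent.RS
open Pool.Agent.MS (BA BB st pf gk Dk amk)

theorem GI1_proof : GI1_stmt := by
  intro a k0 ha
  obtain ⟨c, hc⟩ : ∃ c : ℝ, c = 4 + (2 * a + 3) + (2 * a + 3) ^ 2 := ⟨_, rfl⟩
  have hc4 : 4 ≤ c := by rw [hc]; nlinarith
  have hk0 : (0 : ℝ) ≤ k0 := Nat.cast_nonneg k0
  refine ⟨Real.exp (Real.exp (c + k0)), ?_, ?_⟩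
  · have h1 : c + k0 + 1 ≤ Real.exp (c + k0) := Real.add_one_le_exp _
    have h2 : Real.exp (c + k0) + 1 ≤ Real.exp (Real.exp (c + k0)) := Real.add_one_le_exp _
    linarith
  · intro R hR
    have hR0 : 0 < R := lt_of_lt_of_le (Real.exp_pos _) hR
    have hx1 : Real.exp (c + k0) ≤ Real.log R := (Real.le_log_iff_exp_le hR0).mpr hR
    obtain ⟨x, hx⟩ : ∃ x, x = Real.log R := ⟨_, rfl⟩
    rw [← hx] at hx1 ⊢
    have hx0 : 0 < x := lt_of_lt_of_le (Real.exp_pos _) hx1
    have hy1 : c + k0 ≤ Real.log x := (Real.le_log_iff_exp_le hx0).mpr hx1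
    obtain ⟨y, hy⟩ : ∃ y, y = Real.log x := ⟨_, rfl⟩
    rw [← hy] at hy1 ⊢
    have hyc : c ≤ y := by linarith
    have hxk : (k0 : ℝ) + 1 ≤ x := by
      have h1 : c + k0 + 1 ≤ Real.exp (c + k0) := Real.add_one_le_exp _
      linarith
    have hxx : 1 ≤ x := by linarith
    obtain ⟨p, hp⟩ : ∃ p, p = x ^ (2 * a + 2) := ⟨_, rfl⟩
    have hpx : x ≤ p := by
      rw [hp]
      calc x = x ^ (1 : ℝ) := (Real.rpow_one x).symm
        _ ≤ x ^ (2 * a + 2) := Real.rpow_le_rpow_of_exponent_le hxx (by linarith)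
    have hp0 : 0 < p := by linarith
    have hpe : p = Real.exp (y * (2 * a + 2)) := by rw [hp, Real.rpow_def_of_pos hx0, hy]
    have hneg : x ^ (-(2 * a + 2)) = p⁻¹ := by rw [hp, Real.rpow_neg hx0.le]
    refine ⟨⌈p⌉₊, ?_, ?_, ?_, ?_⟩
    · have h1 : (k0 : ℝ) ≤ (⌈p⌉₊ : ℝ) := by
        have := Nat.le_ceil p
        linarith
      exact_mod_cast h1
    · rw [hneg]
      have h1 : (⌈p⌉₊ : ℝ) ≤ 2 * p := by
        have := Nat.ceil_lt_add_one hp0.le
        linarith
      have h2 : (0 : ℝ) < (⌈p⌉₊ : ℝ) := by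
        have := Nat.le_ceil p
        linarith
      have h3 : p⁻¹ / 2 = 1 / (2 * p) := by field_simp
      rw [h3]
      exact one_div_le_one_div_of_le h2 h1
    · rw [hneg, ← one_div]
      exact one_div_le_one_div_of_le hp0 (Nat.le_ceil p)
    · intro ϵ hϵ
      obtain ⟨k, hk⟩ : ∃ k : ℝ, k = (⌈p⌉₊ : ℝ) := ⟨_, rfl⟩
      have hkp : p ≤ k := by rw [hk]; exact Nat.le_ceil p
      have hk2 : k ≤ 2 * p := by
        rw [hk]
        have := Nat.ceil_lt_add_one hp0.le
        linarith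
      have hk1 : 1 ≤ k := by linarith
      have hkpos : 0 < k := by linarith
      unfold amp
      rw [← hk]
      have hl0 : 0 ≤ Real.log k := Real.log_nonneg hk1
      have hl1 : Real.log k ≤ (2 * a + 3) * y := by
        have h1 : Real.log k ≤ Real.log (2 * p) := Real.log_le_log hkpos hk2
        rw [Real.log_mul (by norm_num) (by positivity), hpe, Real.log_exp] at h1
        have h2 : Real.log 2 ≤ 1 := by
          have := Real.log_two_lt_d9
          linarith
        nlinarith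
      have hy0 : 1 ≤ y := by linarith
      obtain ⟨L, hL⟩ : ∃ L, L = Real.log k := ⟨_, rfl⟩
      rw [← hL] at hl0 hl1 ⊢
      have hA : 0 ≤ 2 * a + 3 := by linarith
      have hmain : 4 + L + L ^ 2 ≤ y ^ 3 := by
        have h1 : L ^ 2 ≤ ((2 * a + 3) * y) ^ 2 := pow_le_pow_left₀ hl0 hl1 2
        have h2 : y ≤ y ^ 2 := by nlinarith
        have h3 : (2 * a + 3) * y ≤ (2 * a + 3) * y ^ 2 := mul_le_mul_of_nonneg_left h2 hA
        have h4 : (4 : ℝ) ≤ 4 * y ^ 2 := by nlinarith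
        have h5 : c * y ^ 2 ≤ y * y ^ 2 := mul_le_mul_of_nonneg_right hyc (by positivity)
        have h6 : 4 + L + L ^ 2 ≤ c * y ^ 2 := by
          rw [hc]
          nlinarith
        calc 4 + L + L ^ 2 ≤ c * y ^ 2 := h6
          _ ≤ y * y ^ 2 := h5
          _ = y ^ 3 := by ring
      have hke : k = Real.exp L := by rw [hL, Real.exp_log hkpos]
      have h32 : (32 : ℝ) ≤ Real.exp 4 := by
        have h1 : (2.7182818283 : ℝ) < Real.exp 1 := Real.exp_one_gt_d9
        have h2 : Real.exp 4 = Real.exp 1 ^ 4 := by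
          rw [← Real.exp_nat_mul]
          norm_num
        rw [h2]
        calc (32 : ℝ) ≤ 2.7182818283 ^ 4 := by norm_num
          _ ≤ Real.exp 1 ^ 4 := pow_le_pow_left₀ (by norm_num) h1.le 4
      have hfin : 32 * k ≤ Real.exp (y ^ 3) * Real.exp (-L ^ 2) := by
        rw [← Real.exp_add]
        calc 32 * k ≤ Real.exp 4 * Real.exp L := by
              rw [hke]
              exact mul_le_mul_of_nonneg_right h32 (Real.exp_pos _).le
          _ = Real.exp (4 + L) := (Real.exp_add _ _).symm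
          _ ≤ Real.exp (y ^ 3 + -L ^ 2) := Real.exp_le_exp.mpr (by linarith)
      have h7 : 16 / (1 / k * R) = (32 * k) / (2 * R) := by
        field_simp
        norm_num
      rw [h7]
      calc (32 * k) / (2 * R) ≤ (Real.exp (y ^ 3) * Real.exp (-L ^ 2)) / (2 * R) :=
            div_le_div_of_nonneg_right hfin (by positivity)
        _ = Real.exp (y ^ 3) / (2 * R) * Real.exp (-L ^ 2) := by ring
        _ ≤ ϵ * Real.exp (-L ^ 2) := mul_le_mul_of_nonneg_right hϵ (Real.exp_pos _).le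

end Pool.Agent.RPQ
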