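import Pool.Agent.helper11.RPQ.SpecI
import Pool.Agent.helper52.RS.SEQ
import Pool.Agent.helper62.RS.GLC

/-!
# Row rpi:LIP (MP_07c750_an, project RPI): the seminorms of order 0 and 1
-/

set_option autoImplicit false

open scoped MatrixGroups ContDiff Topology UpperHalfPlane ComplexConjugate ENNReal
open UpperHalfPlane MeasureTheory Filter Set

namespace Pool.Agent.RPQ

open Pool.Agent.RS
open Pool.Agent.MS (BA BB st pf gk Dk amk)

theorem LIP_open : IsOpen {w : ℂ | 0 < w.im} := isOpen_lt continuous_const Complex.continuous_im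

theorem LIP_onC (f : ℍ → ℝ) (g : SL(2, ℝ)) (w : ℂ) (hw : 0 < w.im) :
    QU.onC (fun z => f (g • z)) w = QU.onC f (SEQ_m g w) := by
  unfold QU.onC
  have h1 : ofComplex w = ⟨w, hw⟩ := ofComplex_apply_of_im_pos hw
  have h2 : SEQ_m g w = ((g • (⟨w, hw⟩ : ℍ) : ℍ) : ℂ) := (SEQ_coe g ⟨w, hw⟩).symm
  rw [h1, h2, ofComplex_apply]

theorem LIP_cd (f : ℍ → ℝ) (g : SL(2, ℝ)) (n : WithTop ℕ∞) (hf : QU.CD n f) : QU.CD n (fun z => f (g • z)) := by
  unfold QU.CD at hf ⊢
  have hm : ContDiffOn ℝ n (SEQ_m g) {w : ℂ | 0 < w.im} := by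
    have h1 : ContDiffOn ℂ n (SEQ_m g) {w : ℂ | 0 < w.im} := by
      refine ContDiffOn.div ?_ ?_ ?_
      · exact ((contDiff_const.mul contDiff_id).add contDiff_const).contDiffOn
      · exact ((contDiff_const.mul contDiff_id).add contDiff_const).contDiffOn
      · intro w hw
        exact SEQ_den g w hw
    exact h1.restrict_scalars ℝ
  have h2 : ContDiffOn ℝ n (QU.onC f ∘ SEQ_m g) {w : ℂ | 0 < w.im} :=
    hf.comp hm fun w hw => SEQ_pos g w hw
  exact h2.congr fun w hw => LIP_onC f g w hw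

theorem LIP_I : ((I : ℍ) : ℂ) = Complex.I := rfl

/-- the derivative along the geodesics -/
theorem LIP_der (f : ℍ → ℝ) (B : ℝ) (hf : QU.CD ∞ f) (hB : CkB 1 f B) (g : SL(2, ℝ)) (s : ℝ) :
    ∃ D : ℝ, HasDerivAt (fun t => f ((g * aM t) • I)) D s ∧ ‖D‖ ≤ B := by
  obtain ⟨-, -, -, -, -, -, -, haM, -, -, hadd, -⟩ := GLC
  obtain ⟨H, hH⟩ : ∃ H : ℂ → ℝ, H = QU.onC (fun z => f ((g * aM s) • z)) := ⟨_, rfl⟩
  have hcd : ContDiffAt ℝ ∞ H (Complex.I) := by
    have h1 : QU.CD ∞ (fun z => f ((g * aM s) • z)) := LIP_cd f (g * aM s) ∞ hf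
    unfold QU.CD at h1
    rw [hH]
    exact h1.contDiffAt (LIP_open.mem_nhds (by simp))
  have hd : HasFDerivAt H (fderiv ℝ H Complex.I) Complex.I := (hcd.differentiableAt (by simp)).hasFDerivAt
  have hn : ‖fderiv ℝ H Complex.I‖ ≤ B := by
    have h1 := hB (g * aM s)
    rw [← hH, LIP_I] at h1
    have h2 : ‖iteratedFDeriv ℝ 0 (fderiv ℝ H) Complex.I‖ = ‖iteratedFDeriv ℝ (0 + 1) H Complex.I‖ := norm_iteratedFDeriv_fderiv
    rw [norm_iteratedFDeriv_zero] at h2
    rw [h2]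
    exact h1
  have hc : HasDerivAt (fun t : ℝ => ((Real.exp (t - s) : ℝ) : ℂ) * Complex.I) Complex.I s := by
    have h1 : HasDerivAt (fun t : ℝ => Real.exp (t - s)) 1 s := by
      have h2 := (hasDerivAt_id s).sub_const s
      have h3 := h2.exp
      simpa using h3
    have h4 := h1.ofReal_comp.mul_const Complex.I
    simpa using h4
  have hc0 : ((Real.exp (s - s) : ℝ) : ℂ) * Complex.I = Complex.I := by simp
  have hcomp : HasDerivAt (fun t : ℝ => H (((Real.exp (t - s) : ℝ) : ℂ) * Complex.I)) (fderiv ℝ H Complex.I Complex.I) s := by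
    have h1 : HasFDerivAt H (fderiv ℝ H Complex.I) (((Real.exp (s - s) : ℝ) : ℂ) * Complex.I) := by
      rw [hc0]
      exact hd
    exact h1.comp_hasDerivAt s hc
  refine ⟨fderiv ℝ H Complex.I Complex.I, ?_, ?_⟩
  · have h1 : (fun t => f ((g * aM t) • I)) = fun t : ℝ => H (((Real.exp (t - s) : ℝ) : ℂ) * Complex.I) := by
      funext t
      rw [hH]
      unfold QU.onC
      have h2 : ofComplex (((Real.exp (t - s) : ℝ) : ℂ) * Complex.I) = aM (t - s) • I := by
        rw [← LIP_I, ← haM (t - s) I]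
        exact ofComplex_apply _
      show f ((g * aM t) • I) = f ((g * aM s) • ofComplex (((Real.exp (t - s) : ℝ) : ℂ) * Complex.I))
      rw [h2, ← mul_smul, mul_assoc, ← hadd]
      have h3 : s + (t - s) = t := by ring
      rw [h3]
    rw [h1]
    exact hcomp
  · calc ‖fderiv ℝ H Complex.I Complex.I‖ ≤ ‖fderiv ℝ H Complex.I‖ * ‖Complex.I‖ := ContinuousLinearMap.le_opNorm _ _
      _ = ‖fderiv ℝ H Complex.I‖ := by rw [Complex.norm_I, mul_one]
      _ ≤ B := hn

/-- rotations move a point to the imaginary axis -/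
theorem LIP_rot (w : ℍ) : ∃ θ t : ℝ, kM θ • w = aM t • I := by
  obtain ⟨-, -, -, -, -, -, -, haM, -, -, hadd, -⟩ := GLC
  obtain ⟨p, hp⟩ : ∃ p : ℝ, p = (1 - (w.re ^ 2 + w.im ^ 2)) / 2 := ⟨_, rfl⟩
  obtain ⟨v, hv⟩ : ∃ v : ℂ, v = ⟨p, -w.re⟩ := ⟨_, rfl⟩
  -- 2 θ is the argument of v plus a right angle
  obtain ⟨θ, hθ⟩ : ∃ θ : ℝ, p * Real.sin (2 * θ) + w.re * Real.cos (2 * θ) = 0 := by
    by_cases h0 : v = 0
    · rw [hv] at h0
      have h1 : p = 0 := congrArg Complex.re h0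
      have h2 : -w.re = 0 := congrArg Complex.im h0
      refine ⟨0, ?_⟩
      have h3 : w.re = 0 := by linarith
      rw [h1, h3]
      ring
    · refine ⟨Complex.arg v / 2, ?_⟩
      have h1 : 2 * (Complex.arg v / 2) = Complex.arg v := by ring
      have h2 : ‖v‖ ≠ 0 := norm_ne_zero_iff.mpr h0
      rw [h1, Complex.sin_arg, Complex.cos_arg h0]
      have h3 : v.re = p := by rw [hv]
      have h4 : v.im = -w.re := by rw [hv]
      rw [h3, h4]
      field_simp
      ring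
  obtain ⟨z, hz⟩ : ∃ z : ℍ, z = kM θ • w := ⟨_, rfl⟩
  have hre : z.re = 0 := by
    have hc : ((z : ℍ) : ℂ) = SEQ_m (kM θ) w := by rw [hz]; exact SEQ_coe (kM θ) w
    have h1 : SEQ_e (kM θ) w ≠ 0 := SEQ_den (kM θ) w w.im_pos
    have hk00 : (kM θ) 0 0 = Real.cos θ := rfl
    have hk01 : (kM θ) 0 1 = Real.sin θ := rfl
    have hk10 : (kM θ) 1 0 = -Real.sin θ := rfl
    have hk11 : (kM θ) 1 1 = Real.cos θ := rfl
    have h2 : z.re = (SEQ_m (kM θ) w).re := by rw [← hc]; rfl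
    rw [h2]
    unfold SEQ_m
    rw [Complex.div_re]
    have h3 : Complex.normSq (SEQ_e (kM θ) w) ≠ 0 := by
      rw [ne_eq, Complex.normSq_eq_zero]
      exact h1
    rw [← add_div, div_eq_zero_iff]
    left
    unfold SEQ_e
    rw [hk00, hk01, hk10, hk11]
    have h4 : Real.sin (2 * θ) = 2 * Real.sin θ * Real.cos θ := Real.sin_two_mul θ
    have h5 : Real.cos (2 * θ) = Real.cos θ ^ 2 - Real.sin θ ^ 2 := Real.cos_two_mul' θ
    rw [h4, h5, hp] at hθ
    simp only [Complex.add_re, Complex.mul_re, Complex.ofReal_re, Complex.ofReal_im, zero_mul, sub_zero, Complex.add_im,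
      Complex.mul_im, add_zero, coe_re, coe_im, Complex.ofReal_neg, Complex.neg_re, Complex.neg_im, neg_zero]
    nlinarith [hθ]
  refine ⟨θ, Real.log z.im, ?_⟩
  rw [← hz]
  apply UpperHalfPlane.ext
  rw [haM (Real.log z.im) I, Real.exp_log z.im_pos, LIP_I]
  apply Complex.ext
  · simp only [coe_re, Complex.mul_re, Complex.ofReal_re, Complex.I_re, mul_zero, Complex.ofReal_im, Complex.I_im, mul_one, sub_zero]
    exact hre
  · simp only [coe_im, Complex.mul_im, Complex.ofReal_re, Complex.I_im, mul_one, Complex.ofReal_im, Complex.I_re, mul_zero, add_zero]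

theorem LIP_dist (t : ℝ) : dist (I : ℍ) (aM t • I : ℍ) = |t| := by
  obtain ⟨-, -, -, -, -, -, -, haM, -⟩ := GLC
  have h1 : (aM t • I : ℍ).re = 0 := by
    have h2 := congrArg Complex.re (haM t I)
    rw [LIP_I] at h2
    simpa using h2
  have h3 : (aM t • I : ℍ).im = Real.exp t := by
    have h2 := congrArg Complex.im (haM t I)
    rw [LIP_I, Complex.mul_im, Complex.I_im, Complex.I_re, mul_one, mul_zero, add_zero, Complex.ofReal_re] at h2
    exact h2
  rw [UpperHalfPlane.dist_of_re_eq (by rw [h1]; rfl), h3, Real.log_exp]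
  have h4 : (I : ℍ).im = 1 := rfl
  rw [h4, Real.log_one, Real.dist_eq, zero_sub, abs_neg]

theorem LIP_proof : LIP_stmt := by
  intro f B hf
  constructor
  · intro hB z
    have h1 := hB (toSL2R z)
    rw [norm_iteratedFDeriv_zero] at h1
    have h2 : QU.onC (fun w : ℍ => f (toSL2R z • w)) ((I : ℍ) : ℂ) = f z := by
      show f (toSL2R z • ofComplex ((I : ℍ) : ℂ)) = f z
      rw [ofComplex_apply, toSL2R_smul_I]
    rw [h2] at h1
    exact h1
  · intro hB z w
    obtain ⟨-, -, -, -, -, -, -, haM, -, -, hadd, -, -, hkadd, -, hkI, -⟩ := GLC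
    obtain ⟨θ, t, hθ⟩ := LIP_rot ((toSL2R z)⁻¹ • w)
    obtain ⟨g, hg⟩ : ∃ g : SL(2, ℝ), g = toSL2R z * kM (-θ) := ⟨_, rfl⟩
    have hk : kM (-θ) * kM θ = 1 := by
      rw [← hkadd, neg_add_cancel]
      apply Matrix.SpecialLinearGroup.ext
      intro i j
      fin_cases i <;> fin_cases j <;> simp [kM]
    have ha0 : aM 0 = 1 := by
      apply Matrix.SpecialLinearGroup.ext
      intro i j
      fin_cases i <;> fin_cases j <;> simp [aM]
    have hz : (g * aM 0) • (I : ℍ) = z := by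
      rw [ha0, mul_one, hg, mul_smul, hkI, toSL2R_smul_I]
    have hw : (g * aM t) • (I : ℍ) = w := by
      rw [hg, mul_smul, mul_smul, ← hθ, ← mul_smul (kM (-θ)), hk, one_smul, smul_inv_smul]
    have hd : |t| = dist z w := by
      rw [← hz, ← hw, mul_smul, mul_smul, dist_smul, ha0, one_smul, LIP_dist]
    have hmv : ‖f ((g * aM t) • I) - f ((g * aM 0) • I)‖ ≤ B * ‖t - 0‖ := by
      have hder := fun s => LIP_der f B hf hB g s
      choose D hD1 hD2 using hder
      exact convex_univ.norm_image_sub_le_of_norm_hasDerivWithin_le (f := fun t => f ((g * aM t) • I)) (f' := D)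
        (fun s _ => (hD1 s).hasDerivWithinAt) (fun s _ => hD2 s) (Set.mem_univ 0) (Set.mem_univ t)
    rw [hz, hw, sub_zero, Real.norm_eq_abs, Real.norm_eq_abs, hd] at hmv
    rw [abs_sub_comm]
    exact hmv

end Pool.Agent.RPQ
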