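import Pool.Agent.helper11.RPQ.SpecI

/-!
# Row rpi:RFP (MP_07c750_an, project RPI): properties of the random potential
-/

set_option autoImplicit false

open scoped MatrixGroups ContDiff Topology UpperHalfPlane ComplexConjugate ENNReal
open UpperHalfPlane MeasureTheory Filter Set

namespace Pool.Agent.RPQ

open Pool.Agent.RS
open Pool.Agent.MS (BA BB st pf gk Dk amk)

theorem RFP_clp (x : ℝ) : |clp x| ≤ 1 := by
  unfold clp
  rw [abs_le]
  exact ⟨le_max_left _ _, max_le (by norm_num) (min_le_left _ _)⟩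

theorem RFP_clp_eq (x : ℝ) (h : |x| ≤ 1) : clp x = x := by
  unfold clp
  rw [abs_le] at h
  rw [min_eq_right h.2, max_eq_right h.1]

theorem RFP_clp_cont : Continuous clp := by
  unfold clp
  exact continuous_const.max (continuous_const.min continuous_id)

theorem RFP_chi (Γ : Subgroup SL(2, ℝ)) (κ : ℝ → ℝ) (C0 : ℝ) (k0 : ℕ) (J : ℕ → ℕ) (p : (k : ℕ) → Fin (J k) → ℍ) (χ : (k : ℕ) → Fin (J k) → ℍ → ℝ)
    (hF : Fam Γ κ C0 k0 J p χ) (k : ℕ) (j : Fin (J k)) : QU.CD ∞ (χ k j) ∧ QU.Inv Γ (χ k j) := by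
  by_cases h : k < k0
  · exfalso
    have h1 := hF.zero k h
    have h2 := j.2
    omega
  · exact ⟨(hF.net k (by omega)).smooth j, (hF.net k (by omega)).inv j⟩

/-- the terms of the series -/
noncomputable def RFP_v (J : ℕ → ℕ) (χ : (k : ℕ) → Fin (J k) → ℍ → ℝ) (ζ : ℕ × ℕ → ℝ) (k : ℕ) (z : ℍ) : ℝ :=
  amp k * VV (χ k) (fun j => ζ (k, (j : ℕ))) z

theorem RFP_term (Γ : Subgroup SL(2, ℝ)) (κ : ℝ → ℝ) (C0 : ℝ) (k0 : ℕ) (J : ℕ → ℕ) (p : (k : ℕ) → Fin (J k) → ℍ) (χ : (k : ℕ) → Fin (J k) → ℍ → ℝ)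
    (hF : Fam Γ κ C0 k0 J p χ) (ζ : ℕ × ℕ → ℝ) (k : ℕ) : QU.CD ∞ (RFP_v J χ ζ k) ∧ QU.Inv Γ (RFP_v J χ ζ k) := by
  have hc := RFP_chi Γ κ C0 k0 J p χ hF k
  refine ⟨?_, ?_, ?_⟩
  · have h1 : ∀ j, ContDiffOn ℝ ∞ (QU.onC (χ k j)) {w : ℂ | 0 < w.im} := fun j => (hc j).1
    have h2 : QU.onC (RFP_v J χ ζ k) = fun w => amp k * ∑ j : Fin (J k), ζ (k, (j : ℕ)) * QU.onC (χ k j) w := rfl
    unfold QU.CD
    rw [h2]
    exact contDiffOn_const.mul (ContDiffOn.sum fun j _ => contDiffOn_const.mul (h1 j))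
  · have h2 : RFP_v J χ ζ k = fun z => amp k * ∑ j : Fin (J k), ζ (k, (j : ℕ)) * χ k j z := rfl
    rw [h2]
    exact continuous_const.mul (continuous_finsetSum _ fun j _ => continuous_const.mul (hc j).2.1)
  · intro γ z
    show amp k * ∑ j : Fin (J k), ζ (k, (j : ℕ)) * χ k j (γ • z) = amp k * ∑ j : Fin (J k), ζ (k, (j : ℕ)) * χ k j z
    congr 1
    refine Finset.sum_congr rfl fun j _ => ?_
    rw [(hc j).2.2 γ z]

/-- everything about the series of bounded coefficients -/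
theorem RFP_ser (hLIP : LIP_stmt) (hSER : SER_stmt) (Γ : Subgroup SL(2, ℝ)) (κ : ℝ → ℝ) (C0 : ℝ) (k0 : ℕ) (J : ℕ → ℕ) (p : (k : ℕ) → Fin (J k) → ℍ)
    (χ : (k : ℕ) → Fin (J k) → ℍ → ℝ) (hF : Fam Γ κ C0 k0 J p χ) : ∃ S0 S1 : ℝ, 0 ≤ S0 ∧ 0 ≤ S1 ∧ ∀ ζ : ℕ × ℕ → ℝ, (∀ q, |ζ q| ≤ 1) →
      (∀ z, Summable fun k => RFP_v J χ ζ k z) ∧ QU.CD ∞ (rf J χ ζ) ∧ QU.Inv Γ (rf J χ ζ) ∧ (∀ z, |rf J χ ζ z| ≤ S0) ∧
      ∀ z w, |rf J χ ζ z - rf J χ ζ w| ≤ S1 * dist z w := by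
  obtain ⟨c0, hs0, hn0, hb0⟩ := hF.sum 0
  obtain ⟨c1, hs1, hn1, hb1⟩ := hF.sum 1
  refine ⟨∑' k, c0 k, ∑' k, c1 k, tsum_nonneg hn0, tsum_nonneg hn1, ?_⟩
  intro ζ hζ
  have hcd := RFP_term Γ κ C0 k0 J p χ hF ζ
  obtain ⟨h1, h2, h3⟩ := hSER Γ (RFP_v J χ ζ) hcd (by
    intro n
    obtain ⟨c, hs, hn, hb⟩ := hF.sum n
    exact ⟨c, hs, fun k => hb k (fun j => ζ (k, (j : ℕ))) fun j => hζ _⟩)
  have hrf : rf J χ ζ = fun z => ∑' k, RFP_v J χ ζ k z := rfl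
  have b0 : ∀ k z, |RFP_v J χ ζ k z| ≤ c0 k := fun k z =>
    (hLIP (RFP_v J χ ζ k) (c0 k) (hcd k).1).1 (hb0 k (fun j => ζ (k, (j : ℕ))) fun j => hζ _) z
  have b1 : ∀ k z w, |RFP_v J χ ζ k z - RFP_v J χ ζ k w| ≤ c1 k * dist z w := fun k z w =>
    (hLIP (RFP_v J χ ζ k) (c1 k) (hcd k).1).2 (hb1 k (fun j => ζ (k, (j : ℕ))) fun j => hζ _) z w
  refine ⟨h1, ?_, ?_, ?_, ?_⟩
  · rw [hrf]
    exact h2
  · rw [hrf]
    exact h3
  · intro z
    rw [hrf, ← Real.norm_eq_abs]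
    exact tsum_of_norm_bounded hs0.hasSum fun k => b0 k z
  · intro z w
    rw [hrf, ← Real.norm_eq_abs]
    show ‖(∑' k, RFP_v J χ ζ k z) - ∑' k, RFP_v J χ ζ k w‖ ≤ _
    rw [← (h1 z).tsum_sub (h1 w)]
    exact tsum_of_norm_bounded (hs1.hasSum.mul_right (dist z w)) fun k => b1 k z w

theorem RFP_bdd (Γ : Subgroup SL(2, ℝ)) (hΓ : QU.SurfaceGroup Γ) (f : ℍ → ℝ) (hf : QU.Inv Γ f) : ∃ M : ℝ, 0 ≤ M ∧ ∀ z, |f z| ≤ M := by
  obtain ⟨K, hK, hc⟩ := hΓ.cocompact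
  obtain ⟨M, hM⟩ := hK.exists_bound_of_continuousOn hf.1.continuousOn
  refine ⟨max M 0, le_max_right _ _, fun z => ?_⟩
  obtain ⟨γ, hγ⟩ := hc z
  have h1 := hM _ hγ
  rw [hf.2 γ z, Real.norm_eq_abs] at h1
  exact h1.trans (le_max_left _ _)

theorem RFP_meas (J : ℕ → ℕ) (χ : (k : ℕ) → Fin (J k) → ℍ → ℝ) (f0 : ℍ → ℝ) (hf0 : Continuous f0) (hχ : ∀ k j, Continuous (χ k j))
    (hs : ∀ (ζ : ℕ × ℕ → ℝ) (z : ℍ), Summable fun k => RFP_v J χ (fun q => clp (ζ q)) k z) : Measurable (Function.uncurry (Vf f0 J χ)) := by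
  have h1 : ∀ k, Measurable fun x : (ℕ × ℕ → ℝ) × ℍ => RFP_v J χ (fun q => clp (x.1 q)) k x.2 := by
    intro k
    have h2 : (fun x : (ℕ × ℕ → ℝ) × ℍ => RFP_v J χ (fun q => clp (x.1 q)) k x.2) =
        fun x => amp k * ∑ j : Fin (J k), clp (x.1 (k, (j : ℕ))) * χ k j x.2 := rfl
    rw [h2]
    refine measurable_const.mul (Finset.measurable_fun_sum _ fun j _ => ?_)
    exact (RFP_clp_cont.measurable.comp ((measurable_pi_apply (k, (j : ℕ))).comp measurable_fst)).mul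
      ((hχ k j).measurable.comp measurable_snd)
  have h3 : ∀ n : ℕ, Measurable fun x : (ℕ × ℕ → ℝ) × ℍ => f0 x.2 + ∑ k ∈ Finset.range n, RFP_v J χ (fun q => clp (x.1 q)) k x.2 := fun n =>
    (hf0.measurable.comp measurable_snd).add (Finset.measurable_fun_sum _ fun k _ => h1 k)
  refine measurable_of_tendsto_metrizable h3 ?_
  rw [tendsto_pi_nhds]
  intro x
  have h4 := (hs x.1 x.2).hasSum.tendsto_sum_nat
  exact h4.const_add (f0 x.2)

theorem RFP_proof (hLIP : LIP_stmt) (hSER : SER_stmt) : RFP_stmt := by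
  intro Γ κ C0 k0 J p χ f0 L hΓ hF hf0 hL
  obtain ⟨S0, S1, hS0, hS1, hser⟩ := RFP_ser hLIP hSER Γ κ C0 k0 J p χ hF
  obtain ⟨M, hM0, hM⟩ := RFP_bdd Γ hΓ f0 hf0
  have hclp : ∀ ζ : ℕ × ℕ → ℝ, ∀ q, |(fun q => clp (ζ q)) q| ≤ 1 := fun ζ q => RFP_clp _
  refine ⟨⟨M + S0 + |L| + S1, by positivity, ?_, ?_⟩, ?_⟩
  · exact RFP_meas J χ f0 hf0.1 (fun k j => (RFP_chi Γ κ C0 k0 J p χ hF k j).2.1) fun ζ z => (hser _ (hclp ζ)).1 z
  · intro ζ
    obtain ⟨h1, h2, h3, h4, h5⟩ := hser _ (hclp ζ)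
    have hLa : 0 ≤ |L| := abs_nonneg L
    refine ⟨⟨hf0.1.add h3.1, fun γ z => ?_⟩, fun z => ?_, fun z w => ?_, ?_⟩
    · show f0 (γ • z) + rf J χ (fun q => clp (ζ q)) (γ • z) = f0 z + rf J χ (fun q => clp (ζ q)) z
      rw [hf0.2 γ z, h3.2 γ z]
    · show |f0 z + rf J χ (fun q => clp (ζ q)) z| ≤ _
      refine (abs_add_le _ _).trans ?_
      have := hM z
      have := h4 z
      linarith
    · show |(f0 z + rf J χ (fun q => clp (ζ q)) z) - (f0 w + rf J χ (fun q => clp (ζ q)) w)| ≤ _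
      have e1 : (f0 z + rf J χ (fun q => clp (ζ q)) z) - (f0 w + rf J χ (fun q => clp (ζ q)) w) =
        (f0 z - f0 w) + (rf J χ (fun q => clp (ζ q)) z - rf J χ (fun q => clp (ζ q)) w) := by ring
      rw [e1]
      refine (abs_add_le _ _).trans ?_
      have e2 := hL z w
      have e3 := h5 z w
      have e4 : L * dist z w ≤ |L| * dist z w := mul_le_mul_of_nonneg_right (le_abs_self L) dist_nonneg
      have e5 : 0 ≤ (M + S0) * dist z w := by positivity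
      calc |f0 z - f0 w| + |rf J χ (fun q => clp (ζ q)) z - rf J χ (fun q => clp (ζ q)) w| ≤ |L| * dist z w + S1 * dist z w := by linarith
        _ ≤ (M + S0 + |L| + S1) * dist z w := by nlinarith
    · intro k ξ hξ z
      have ha := (hser _ (hclp (upd k (J k) (ζ, ξ)))).1 z
      have hb := (hser _ (hclp (upd k (J k) (ζ, fun _ => 0)))).1 z
      have hd : (∑' m, RFP_v J χ (fun q => clp (upd k (J k) (ζ, ξ) q)) m z) - (∑' m, RFP_v J χ (fun q => clp (upd k (J k) (ζ, fun _ => 0) q)) m z) =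
          amp k * VV (χ k) ξ z := by
        rw [← ha.tsum_sub hb, tsum_eq_single k]
        · have e1 : RFP_v J χ (fun q => clp (upd k (J k) (ζ, ξ) q)) k z = amp k * VV (χ k) ξ z := by
            unfold RFP_v VV
            congr 1
            refine Finset.sum_congr rfl fun j _ => ?_
            congr 1
            have e2 : upd k (J k) (ζ, ξ) (k, (j : ℕ)) = ξ j := by
              unfold upd
              rw [dif_pos ⟨rfl, j.2⟩]
            show clp (upd k (J k) (ζ, ξ) (k, (j : ℕ))) = ξ j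
            rw [e2, RFP_clp_eq _ (hξ j)]
          have e3 : RFP_v J χ (fun q => clp (upd k (J k) (ζ, fun _ => 0) q)) k z = 0 := by
            unfold RFP_v VV
            have e4 : ∀ j : Fin (J k), clp (upd k (J k) (ζ, fun _ => 0) (k, (j : ℕ))) * χ k j z = 0 := by
              intro j
              have e2 : upd k (J k) (ζ, fun _ => 0) (k, (j : ℕ)) = 0 := by
                unfold upd
                rw [dif_pos ⟨rfl, j.2⟩]
              rw [e2, RFP_clp_eq 0 (by norm_num), zero_mul]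
            rw [Finset.sum_eq_zero fun j _ => e4 j, mul_zero]
          rw [e1, e3, sub_zero]
        · intro m hm
          have e1 : RFP_v J χ (fun q => clp (upd k (J k) (ζ, ξ) q)) m z = RFP_v J χ (fun q => clp (upd k (J k) (ζ, fun _ => 0) q)) m z := by
            unfold RFP_v VV
            congr 1
            refine Finset.sum_congr rfl fun j _ => ?_
            congr 1
            have e2 : ∀ x : Fin (J k) → ℝ, upd k (J k) (ζ, x) (m, (j : ℕ)) = ζ (m, (j : ℕ)) := by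
              intro x
              unfold upd
              rw [dif_neg (fun h => hm h.1)]
            show clp (upd k (J k) (ζ, ξ) (m, (j : ℕ))) = clp (upd k (J k) (ζ, fun _ => 0) (m, (j : ℕ)))
            rw [e2, e2]
          rw [e1, sub_self]
      show f0 z + (∑' m, RFP_v J χ (fun q => clp (upd k (J k) (ζ, ξ) q)) m z) =
        f0 z + (∑' m, RFP_v J χ (fun q => clp (upd k (J k) (ζ, fun _ => 0) q)) m z) + amp k * VV (χ k) ξ z
      linarith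
  · intro ζ hζ
    obtain ⟨h1, h2, h3, h4, h5⟩ := hser ζ hζ
    refine ⟨h2, fun z => ?_⟩
    have e1 : (fun q => clp (ζ q)) = ζ := by
      funext q
      exact RFP_clp_eq _ (hζ q)
    show f0 z + rf J χ (fun q => clp (ζ q)) z = f0 z + rf J χ ζ z
    rw [e1]

end Pool.Agent.RPQ
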