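import Pool.Agent.helper11.RPQ.SpecI
import Pool.Agent.helper30.RPQ.WXN

/-!
# Row rpi:WXW (MP_07c750_an, project RPI): the final estimate with a deterministic phase
-/

set_option autoImplicit false

open scoped MatrixGroups ContDiff Topology UpperHalfPlane ComplexConjugate ENNReal
open UpperHalfPlane MeasureTheory Filter Set

namespace Pool.Agent.RPQ

open Pool.Agent.RS
open Pool.Agent.MS (BA BB st pf gk Dk amk)

theorem WXW_proof (hESW : ESW_stmt) (hCHN : CHN_stmt) : WXW_stmt := by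
  intro N L η ε θ B C1 C' hL hη hε hs hθ hB hC1 hC' hBθ
  have hCC : 1 ≤ (C' * C1) ^ (L + 1) := one_le_pow₀ (by nlinarith)
  refine ⟨(2 * (C' * C1) ^ (L + 1)) ^ 2, by nlinarith, ?_⟩
  intro Γ F C R s κ J nc K χ W u A l hΓ hF hR0 hC hWI hW
  have hR1 : 1 ≤ R := by nlinarith
  have hR : 0 < R := by linarith
  have hR2 : 2 * (C' * C1) ^ (L + 1) ≤ R ^ (1 / 2 : ℝ) := by
    rw [← Real.sqrt_eq_rpow]
    exact Real.le_sqrt_of_sq_le hR0
  have hl : l ≠ [] := by
    intro h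
    have h1 := hW.len
    rw [h, List.length_nil] at h1
    omega
  have hnst : 9 ≤ nst l := by
    obtain ⟨n, hn⟩ := List.exists_mem_of_ne_nil l hl
    exact le_trans (hW.stp n hn) (WXN_nst l n hn)
  obtain ⟨n, hn⟩ : ∃ n : ℕ, nst l = n + 1 := ⟨nst l - 1, by omega⟩
  have hnN : n + 1 ≤ N := by rw [← hn]; exact hW.sum
  have hn1 : nst l - 1 = n := by omega
  have hmj : ∀ b, mj C η ε R b ≤ ENNReal.ofReal (C * R ^ (15 / 16 + η)) := by
    intro b
    exact indicator_le_self' (fun _ _ => zero_le) b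
  have hmeas : Measurable (mj C η ε R) := measurable_const.indicator (WXN_Bx C η ε R)
  have hu0 : ∀ b, u b ≠ 0 → b ∈ Bx C η ε R := by
    intro b hb
    apply WXN_mem C η ε R b
    intro h0
    have h1 := hW.le b
    rw [h0] at h1
    apply hb
    exact enorm_eq_zero.mp (le_antisymm h1 zero_le)
  have hub : ∃ B : ℝ, ∀ b, ‖u b‖ ≤ B := by
    refine ⟨C * R ^ (15 / 16 + η), ?_⟩
    intro b
    have h1 := (hW.le b).trans (hmj b)
    rw [← ofReal_norm] at h1
    exact (ENNReal.ofReal_le_ofReal_iff (by positivity)).mp h1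
  have h1 := hESW Γ F J nc K χ W s κ (tau R) u (mj C η ε R) A l
    (ENNReal.ofReal (C' * R ^ (1 - ((n : ℝ) + 1) / 16 + η + (n : ℝ) * ε)))
    (ENNReal.ofReal (C' * R ^ (((n : ℝ) + 1) / 16 + η + ((n : ℝ) + 1) * ε))) hΓ hF hW.inv hWI hW.meas hub
    ⟨3, fun b hb => (hu0 b hb).1⟩ hW.measA hW.invA hl hmeas hW.le ENNReal.ofReal_ne_top (by
      intro g h
      rw [hn1]
      exact hW.mcv n (by omega) g h) (by
      intro g h
      rw [hn1]
      exact hW.blk n (by omega) (by omega) g h) (by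
      intro g h b hb hp
      refine le_trans (Set.encard_le_encard ?_) (hW.cnt g h b (fun j hj => WXN_mem C η ε R _ (hb j hj)) hp)
      rintro γ ⟨b', hb', hp', hU⟩
      exact ⟨b', fun j hj => WXN_mem C η ε R _ (hb' j hj), hp', hU⟩)
  have h2 := hCHN Γ F (tau R) (mj C η ε R) A l
    (fun n : ℕ => ENNReal.ofReal (C' * R ^ (((n : ℝ) + 1) / 16 + η + ((n : ℝ) + 1) * ε))) hΓ hF hmeas hW.measA hW.invA hl (by
      intro k hk g h
      have h3 := WXN_nst l k hk
      exact hW.blk k (hW.stp k hk) (by omega) g h)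
  rw [WXN_prod R C' η ε hR (by linarith) l, hW.len, hn] at h2
  have h3 : mG (dG F ∩ A) ^ (L + 1) ≤ ENNReal.ofReal ((C1 * R ^ (-(θ / 8))) ^ (L + 1)) := by
    rw [ENNReal.ofReal_pow (by positivity)]
    exact pow_le_pow_left₀ zero_le hW.volA _
  have h4 : (K : ENNReal) = ENNReal.ofReal (K : ℝ) := (ENNReal.ofReal_natCast K).symm
  refine h1.trans ?_
  rw [h4]
  have h5 : ∫⁻ g in dG F, ∫⁻ h, wdE (mj C η ε R) (tau R) A l g h ∂mG ∂mG ≤
      ENNReal.ofReal (C' ^ L * R ^ (((n : ℝ) + 1) / 16 + (L : ℝ) * η + ((n : ℝ) + 1) * ε) * (C1 * R ^ (-(θ / 8))) ^ (L + 1)) := by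
    refine h2.trans ?_
    have h6 : (((n + 1 : ℕ) : ℝ)) = (n : ℝ) + 1 := by push_cast; ring
    rw [h6]
    have hX : 0 ≤ C' ^ L * R ^ (((n : ℝ) + 1) / 16 + (L : ℝ) * η + ((n : ℝ) + 1) * ε) := by positivity
    refine (mul_le_mul' le_rfl h3).trans ?_
    rw [← ENNReal.ofReal_mul hX]
  refine (mul_le_mul' le_rfl h5).trans ?_
  rw [← ENNReal.ofReal_mul (by positivity), ← ENNReal.ofReal_mul (by positivity), ← ENNReal.ofReal_add (by positivity) (by positivity),
    ← ENNReal.ofReal_mul (by positivity)]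
  apply ENNReal.ofReal_le_ofReal
  exact WXN_real R C' C1 η ε θ B _ _ N L n hR1 hC' hC1 hη hε hs hB hBθ hnN hW.K1 hW.nc1 hR2

end Pool.Agent.RPQ
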